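import Mathlib
import Pool.Agent.Helper85.TE.Main

/-!
For every real number `T` there are only finitely many connected nonregular graphs with exactly
three distinct adjacency eigenvalues all of which are at least `-T`.
-/

set_option autoImplicit false

namespace Pool.Agent.Results.MP_5bf3a1_co.BoundedSmallestEigenvalue

open Finset TE

/-- If all degrees are at most `D` and the diameter is at most two, there are at most
`D * D + D + 1` vertices. -/
lemma card_le_of_deg {V : Type*} [Fintype V] [DecidableEq V] (G : SimpleGraph V)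
    [DecidableRel G.Adj] (x0 : V) (D : ℕ) (hD : ∀ x, G.degree x ≤ D)
    (hdiam : ∀ x y, x ≠ y → ¬ G.Adj x y → ∃ z, G.Adj x z ∧ G.Adj y z) :
    Fintype.card V ≤ D * D + D + 1 := by
  have hsub : (Finset.univ : Finset V) ⊆
      insert x0 (G.neighborFinset x0 ∪ (G.neighborFinset x0).biUnion (fun y => G.neighborFinset y)) := by
    intro z _
    by_cases h1 : z = x0
    · rw [h1]; simp
    · apply Finset.mem_insert_of_mem
      by_cases h2 : G.Adj x0 z
      · exact Finset.mem_union_left _ ((mem_N x0 z).mpr h2)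
      · obtain ⟨y, hy1, hy2⟩ := hdiam x0 z (Ne.symm h1) h2
        apply Finset.mem_union_right
        rw [Finset.mem_biUnion]
        exact ⟨y, (mem_N x0 y).mpr hy1, (mem_N y z).mpr hy2.symm⟩
  have h1 := Finset.card_le_card hsub
  rw [Finset.card_univ] at h1
  have h2 := Finset.card_insert_le x0
    (G.neighborFinset x0 ∪ (G.neighborFinset x0).biUnion (fun y => G.neighborFinset y))
  have h3 := Finset.card_union_le (G.neighborFinset x0)
    ((G.neighborFinset x0).biUnion (fun y => G.neighborFinset y))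
  have h4 : ((G.neighborFinset x0).biUnion (fun y => G.neighborFinset y)).card ≤ D * D := by
    calc _ ≤ ∑ y ∈ G.neighborFinset x0, (G.neighborFinset y).card := Finset.card_biUnion_le
      _ ≤ ∑ y ∈ G.neighborFinset x0, D := Finset.sum_le_sum fun y _ => hD y
      _ = (G.neighborFinset x0).card * D := by rw [Finset.sum_const, smul_eq_mul]
      _ ≤ D * D := Nat.mul_le_mul_right _ (hD x0)
  have h5 : (G.neighborFinset x0).card ≤ D := hD x0
  omega

/-- Main theorem. -/
theorem result : ∀ T : ℝ, ∃ N : ℕ, ∀ (n : ℕ) (G : SimpleGraph (Fin n)) [DecidableRel G.Adj],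
    G.Connected →
    {μ : ℝ | ∃ v : Fin n → ℝ, v ≠ 0 ∧ Matrix.mulVec (G.adjMatrix ℝ) v = μ • v}.ncard = 3 →
    (∀ μ ∈ {μ : ℝ | ∃ v : Fin n → ℝ, v ≠ 0 ∧ Matrix.mulVec (G.adjMatrix ℝ) v = μ • v}, -T ≤ μ) →
    (∃ d, G.IsRegularOfDegree d) ∨ n ≤ N := by
  intro T0
  set T : ℝ := max T0 1 with hTdef
  have hT1 : 1 ≤ T := le_max_right _ _
  set K : ℝ := max (KK T) 1 with hKdef
  have hK1 : 1 ≤ K := le_max_right _ _
  set Q : ℝ := max (QQ T (K ^ 2)) 0 with hQdef
  have hQ0 : 0 ≤ Q := le_max_right _ _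
  set D : ℕ := ⌊K ^ 2 + T * Q⌋₊ with hDdef
  refine ⟨D * D + D + 1, ?_⟩
  intro n G _ hc h3 hT
  by_cases hreg : ∃ d, G.IsRegularOfDegree d
  · exact Or.inl hreg
  right
  obtain ⟨θ0, θ1, θ2, α, h⟩ := exists_dat G T hT1 hc h3 (by
    intro μ v hv hμ
    have h1 := hT μ ⟨v, hv, hμ⟩
    have h2 : T0 ≤ T := le_max_left _ _
    linarith)
  have hαK : ∀ x, α x ≤ K := fun x => (h.bdd hreg x).trans (le_max_left _ _)
  have hθ1 : θ1 ≤ Q := by
    by_contra hcon
    push Not at hcon
    exact h.false_of_large hreg K hK1 hαK (lt_of_le_of_lt (le_max_left _ _) hcon)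
  obtain ⟨x0⟩ := h.conn.nonempty
  have hdeg : ∀ x, G.degree x ≤ D := by
    intro x
    apply Nat.le_floor
    rw [h.diag x]
    have e1 : α x ^ 2 ≤ K ^ 2 := pow_le_pow_left₀ (h.pos x).le (hαK x) 2
    have e2 : -(θ1 * θ2) ≤ T * Q := by
      rcases le_or_gt 0 θ1 with h1 | h1
      · have h2 : -θ2 ≤ T := by linarith [h.hT]
        calc -(θ1 * θ2) = θ1 * (-θ2) := by ring
          _ ≤ θ1 * T := mul_le_mul_of_nonneg_left h2 h1
          _ ≤ Q * T := mul_le_mul_of_nonneg_right hθ1 (by linarith)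
          _ = T * Q := by ring
      · have h2 : θ2 < 0 := lt_trans h.h12 h1
        have h3 : 0 < θ1 * θ2 := mul_pos_of_neg_of_neg h1 h2
        have h4 : 0 ≤ T * Q := mul_nonneg (by linarith) hQ0
        linarith
    linarith
  have := card_le_of_deg G x0 D hdeg (fun x y hne hxy => h.cd_pos_nonadj x y hne hxy)
  rw [Fintype.card_fin] at this
  exact this

end Pool.Agent.Results.MP_5bf3a1_co.BoundedSmallestEigenvalue
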