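import Mathlib
import Pool.Agent.TS.Final
import Pool.Agent.Results.MP_5bf3a1_co.BoundedSmallestEigenvalue

set_option autoImplicit false

/-!
# MP_5bf3a1_co: graphs with three eigenvalues and bounded second largest eigenvalue

For every `T` only finitely many connected graphs with exactly three distinct adjacency
eigenvalues, all but the largest of which are at most `T`, are neither regular nor complete
bipartite.
-/

namespace Pool.Agent.Results.MP_5bf3a1_co.BoundedSecondEigenvalue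

open TE TS

/-- Main theorem. -/
theorem result : ∀ T : ℝ, ∃ N : ℕ, ∀ (n : ℕ) (G : SimpleGraph (Fin n)) [DecidableRel G.Adj],
    G.Connected →
    {μ : ℝ | ∃ v : Fin n → ℝ, v ≠ 0 ∧ Matrix.mulVec (G.adjMatrix ℝ) v = μ • v}.ncard = 3 →
    (∀ μ ∈ {μ : ℝ | ∃ v : Fin n → ℝ, v ≠ 0 ∧ Matrix.mulVec (G.adjMatrix ℝ) v = μ • v},
      ∀ ν ∈ {μ : ℝ | ∃ v : Fin n → ℝ, v ≠ 0 ∧ Matrix.mulVec (G.adjMatrix ℝ) v = μ • v},
        μ < ν → μ ≤ T) →
    (∃ d, G.IsRegularOfDegree d) ∨
      (∃ s : Set (Fin n), ∀ u v, G.Adj u v ↔ ¬ (u ∈ s ↔ v ∈ s)) ∨ n ≤ N := by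
  intro T
  set K : ℝ := max T 1 with hK
  have hK1 : 1 ≤ K := le_max_right _ _
  obtain ⟨S0, hS0, hfalse⟩ := large_false K hK1
  obtain ⟨N, hN⟩ := BoundedSmallestEigenvalue.result S0
  refine ⟨N, ?_⟩
  intro n G _ hc h3 hT
  by_cases hreg : ∃ d, G.IsRegularOfDegree d
  · exact Or.inl hreg
  right
  set S : Set ℝ := {μ : ℝ | ∃ v : Fin n → ℝ, v ≠ 0 ∧ Matrix.mulVec (G.adjMatrix ℝ) v = μ • v}
    with hSdef
  obtain ⟨a, b, c, hba, hcb, hSabc⟩ := exists_three S h3
  obtain ⟨θ0, θ1, θ2, α, h⟩ := exists_dat G (max 1 (-c)) (le_max_left _ _) hc h3 (by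
    intro μ v hv hμ
    have h1 : μ ∈ S := ⟨v, hv, hμ⟩
    rw [hSabc] at h1
    have h2 : -c ≤ max 1 (-c) := le_max_right _ _
    rcases h1 with h1 | h1 | h1
    · linarith
    · linarith
    · have : μ = c := h1
      linarith)
  have hsub : S ⊆ {θ0, θ1, θ2} := by
    rintro μ ⟨v, hv, hμ⟩
    have := h.ev μ v hv (by
      intro x
      have h1 := congrFun hμ x
      rw [mulVec_ad] at h1
      rw [h1]; rfl)
    simpa using this
  have hSeq : S = {θ0, θ1, θ2} := by
    apply Set.eq_of_subset_of_ncard_le hsub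
    · rw [h3]
      have e1 := Set.ncard_insert_le θ0 ({θ1, θ2} : Set ℝ)
      have e2 := Set.ncard_insert_le θ1 ({θ2} : Set ℝ)
      rw [Set.ncard_singleton] at e2
      omega
  have m0 : θ0 ∈ S := by rw [hSeq]; simp
  have m1 : θ1 ∈ S := by rw [hSeq]; simp
  have m2 : θ2 ∈ S := by rw [hSeq]; simp
  have hθ1T : θ1 ≤ K := (hT θ1 m1 θ0 m0 h.h01).trans (le_max_left _ _)
  have hnn := theta1_nonneg h hreg
  rcases hnn.lt_or_eq with hpos | hzero
  · right
    by_cases hbig : S0 ≤ -θ2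
    · exfalso
      have h1 := theta1_ge_one h hreg hpos (by linarith)
      exact hfalse (Fin n) G _ θ0 θ1 θ2 α h hreg h1 hθ1T hbig
    · push Not at hbig
      rcases hN n G hc h3 (by
        intro μ hμ
        have h1 : μ ∈ S := hμ
        rw [hSeq] at h1
        have h01 := h.h01
        have h12 := h.h12
        rcases h1 with h1 | h1 | h1
        · linarith
        · linarith
        · have : μ = θ2 := h1
          linarith) with h2 | h2
      · exact absurd h2 hreg
      · exact h2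
  · left
    exact bip h hreg hzero.symm

end Pool.Agent.Results.MP_5bf3a1_co.BoundedSecondEigenvalue
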