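import Mathlib
import Pool.Agent.TV.Main

set_option autoImplicit false

/-!
# MP_5bf3a1_co: almost all vertices have one of few valencies

For a connected graph with exactly three distinct adjacency eigenvalues `θ0 > θ1 > θ2` on `n`
vertices put `K = (θ1 - θ2)² / (θ0 - θ2)`; then `K ≤ 4 + (θ1 + θ2)² / θ0`. For every `δ > 0` all but
`δ n` vertices have one of at most `2 + 2 ⌊4 √(min(K, 20 √n)/δ)⌋` valencies. Altogether there are at
most `2 + 8 (K n)^(1/3)` and at most `1 + 2 √((θ1 + 1) |θ2|)` valencies.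

The proof: if `α` is the Perron vector with `(A - θ1)(A - θ2) = α αᵀ` then
`p = α² - U α + c` with `U = (∑ α)/(θ0 - θ2)`, `c = θ1 (|θ2| - 1)` is an eigenvector for `θ2`, its
square norm is at most `K n (U² - 4 c)`, so the entries of `α` are on average at distance at most
`2 √K` from the two roots of `z² - U z + c`, while different entries differ by at least 1. In the
nonregular, not complete bipartite case `K ≤ 20 √n` by the absolute bound.
-/

namespace Pool.Agent.Results.MP_5bf3a1_co.AlmostAllVertices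

open Finset TE TS TV

/-- the eigenvalue set determines the ordered triple -/
lemma triple_eq {a b c a' b' c' : ℝ} (h1 : b < a) (h2 : c < b) (h1' : b' < a') (h2' : c' < b')
    (h : ({a, b, c} : Set ℝ) = {a', b', c'}) : a = a' ∧ b = b' ∧ c = c' := by
  have ma : a ∈ ({a', b', c'} : Set ℝ) := by rw [← h]; simp
  have mb : b ∈ ({a', b', c'} : Set ℝ) := by rw [← h]; simp
  have mc : c ∈ ({a', b', c'} : Set ℝ) := by rw [← h]; simp
  simp only [Set.mem_insert_iff, Set.mem_singleton_iff] at ma mb mc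
  rcases ma with ma | ma | ma <;> rcases mb with mb | mb | mb <;> rcases mc with mc | mc | mc <;>
    first
    | exact ⟨ma, mb, mc⟩
    | (exfalso; linarith)

/-- Main theorem. -/
theorem result : ∀ (n : ℕ) (G : SimpleGraph (Fin n)) [DecidableRel G.Adj] (θ0 θ1 θ2 : ℝ),
    G.Connected → θ1 < θ0 → θ2 < θ1 →
    {μ : ℝ | ∃ v : Fin n → ℝ, v ≠ 0 ∧ Matrix.mulVec (G.adjMatrix ℝ) v = μ • v} = {θ0, θ1, θ2} →
    (∀ δ : ℝ, 0 < δ → ∃ D : Finset ℕ,
      D.card ≤ 2 + 2 * ⌊4 * √(min ((θ1 - θ2) ^ 2 / (θ0 - θ2)) (20 * √(n : ℝ)) / δ)⌋₊ ∧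
      ((univ.filter (fun x => G.degree x ∉ D)).card : ℝ) ≤ δ * n) ∧
    ((univ.image (fun x => G.degree x)).card : ℝ) ≤
      2 + 8 * ((θ1 - θ2) ^ 2 / (θ0 - θ2) * n) ^ (1 / 3 : ℝ) ∧
    ((univ.image (fun x => G.degree x)).card : ℝ) ≤ 1 + 2 * √((θ1 + 1) * (-θ2)) ∧
    (θ1 - θ2) ^ 2 / (θ0 - θ2) ≤ 4 + (θ1 + θ2) ^ 2 / θ0 := by
  intro n G _ θ0 θ1 θ2 hc h01 h12 hS
  have hcard3 : {μ : ℝ | ∃ v : Fin n → ℝ, v ≠ 0 ∧
      Matrix.mulVec (G.adjMatrix ℝ) v = μ • v}.ncard = 3 := by
    rw [hS, Set.ncard_insert_of_notMem, Set.ncard_pair h12.ne']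
    simp only [Set.mem_insert_iff, Set.mem_singleton_iff, not_or]
    exact ⟨h01.ne', (h12.trans h01).ne'⟩
  obtain ⟨a, b, c, α, h⟩ := exists_dat G (max 1 (-θ2)) (le_max_left _ _) hc hcard3 (by
    intro μ v hv hμ
    have h1 : μ ∈ ({θ0, θ1, θ2} : Set ℝ) := by rw [← hS]; exact ⟨v, hv, hμ⟩
    have h2 : -θ2 ≤ max 1 (-θ2) := le_max_right _ _
    simp only [Set.mem_insert_iff, Set.mem_singleton_iff] at h1
    rcases h1 with h1 | h1 | h1 <;> linarith)
  have hsub : ({θ0, θ1, θ2} : Set ℝ) ⊆ {a, b, c} := by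
    rw [← hS]
    rintro μ ⟨v, hv, hμ⟩
    have := h.ev μ v hv (by
      intro x
      have h1 := congrFun hμ x
      rw [mulVec_ad] at h1
      rw [h1]; rfl)
    simpa using this
  have hSeq : ({θ0, θ1, θ2} : Set ℝ) = {a, b, c} := by
    apply Set.eq_of_subset_of_ncard_le hsub
    · rw [← hS, hcard3]
      have e1 := Set.ncard_insert_le a ({b, c} : Set ℝ)
      have e2 := Set.ncard_insert_le b ({c} : Set ℝ)
      rw [Set.ncard_singleton] at e2
      omega
  obtain ⟨rfl, rfl, rfl⟩ := triple_eq h01 h12 h.h01 h.h12 hSeq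
  have hnpos : 0 < n := by
    obtain ⟨x⟩ := hc.nonempty
    exact x.pos
  have hcardn : Fintype.card (Fin n) = n := Fintype.card_fin n
  have hKpos : 0 < (θ1 - θ2) ^ 2 / (θ0 - θ2) := by
    have : 0 < θ1 - θ2 := by linarith
    have : 0 < θ0 - θ2 := by linarith
    positivity
  have hθ2 := theta2_le h
  have htriv : (univ.image (fun x => G.degree x)).card ≤ 2 →
      (∀ δ : ℝ, 0 < δ → ∃ D : Finset ℕ,
        D.card ≤ 2 + 2 * ⌊4 * √(min ((θ1 - θ2) ^ 2 / (θ0 - θ2)) (20 * √(n : ℝ)) / δ)⌋₊ ∧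
        ((univ.filter (fun x => G.degree x ∉ D)).card : ℝ) ≤ δ * n) := by
    intro h2 δ hδ
    refine ⟨univ.image (fun x => G.degree x), by omega, ?_⟩
    have : univ.filter (fun x => G.degree x ∉ univ.image (fun x => G.degree x)) = ∅ := by
      rw [Finset.filter_eq_empty_iff]
      intro x _
      simp
    rw [this, Finset.card_empty, Nat.cast_zero]
    positivity
  by_cases hreg : ∃ d, G.IsRegularOfDegree d
  · obtain ⟨d, hd⟩ := hreg
    have h1 : (univ.image (fun x => G.degree x)).card ≤ 1 := by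
      apply Finset.card_le_one.mpr
      intro a ha b hb
      obtain ⟨x, _, rfl⟩ := Finset.mem_image.mp ha
      obtain ⟨y, _, rfl⟩ := Finset.mem_image.mp hb
      rw [hd x, hd y]
    have h1' : ((univ.image (fun x => G.degree x)).card : ℝ) ≤ 1 := by exact_mod_cast h1
    refine ⟨htriv (by omega), ?_, ?_, partD h⟩
    · have : 0 ≤ ((θ1 - θ2) ^ 2 / (θ0 - θ2) * n) ^ (1 / 3 : ℝ) := by positivity
      linarith
    · have : 0 ≤ √((θ1 + 1) * (-θ2)) := Real.sqrt_nonneg _
      linarith
  · have hnn := theta1_nonneg h hreg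
    rcases hnn.lt_or_eq with hpos | hzero
    · have hA : ∀ δ : ℝ, 0 < δ → ∃ D : Finset ℕ,
          D.card ≤ 2 + 2 * ⌊4 * √((θ1 - θ2) ^ 2 / (θ0 - θ2) / δ)⌋₊ ∧
          ((univ.filter (fun x => G.degree x ∉ D)).card : ℝ) ≤ δ * n := by
        intro δ hδ
        have := partA h hreg hpos δ hδ
        rw [hcardn] at this
        exact this
      have hE := partE h hreg hpos
      rw [hcardn] at hE
      refine ⟨?_, partB hKpos hnpos hcardn hA, partC h hreg hpos, partD h⟩
      rw [min_eq_left hE]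
      exact hA
    · obtain ⟨s, hs⟩ := bip h hreg hzero.symm
      have h2 : (univ.image (fun x => G.degree x)).card ≤ 2 := by
        classical
        have h3 : univ.image (fun x => G.degree x) ⊆
            {(univ.filter (fun y => y ∉ s)).card, (univ.filter (fun y => y ∈ s)).card} := by
          intro d hd
          obtain ⟨x, _, rfl⟩ := Finset.mem_image.mp hd
          rw [Finset.mem_insert, Finset.mem_singleton]
          by_cases hx : x ∈ s
          · left
            rw [← SimpleGraph.card_neighborFinset_eq_degree]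
            congr 1
            ext y
            simp [hs x y, hx]
          · right
            rw [← SimpleGraph.card_neighborFinset_eq_degree]
            congr 1
            ext y
            simp [hs x y, hx]
        exact (Finset.card_le_card h3).trans Finset.card_le_two
      have h2' : ((univ.image (fun x => G.degree x)).card : ℝ) ≤ 2 := by exact_mod_cast h2
      refine ⟨htriv h2, ?_, ?_, partD h⟩
      · have : 0 ≤ ((θ1 - θ2) ^ 2 / (θ0 - θ2) * n) ^ (1 / 3 : ℝ) := by positivity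
        linarith
      · have h4 : (1 : ℝ) ≤ √((θ1 + 1) * (-θ2)) := by
          apply Real.le_sqrt_of_sq_le
          rw [← hzero]; linarith
        linarith

end Pool.Agent.Results.MP_5bf3a1_co.AlmostAllVertices
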