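import Mathlib
import Pool.Agent.Val3.Fin38

set_option autoImplicit false

/-!
# MP_5bf3a1_co: the number of distinct valencies of a graph with three eigenvalues

A connected graph on `n` vertices with exactly three distinct adjacency eigenvalues has at most
`5000 n ^ (3 / 8)` distinct valencies.
-/

namespace Pool.Agent.Results.MP_5bf3a1_co.DistinctValencies

open TE TS Val3

/-- Main theorem. -/
theorem result : ∀ (n : ℕ) (G : SimpleGraph (Fin n)) [DecidableRel G.Adj],
    G.Connected →
    {μ : ℝ | ∃ v : Fin n → ℝ, v ≠ 0 ∧ Matrix.mulVec (G.adjMatrix ℝ) v = μ • v}.ncard = 3 →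
    ((Finset.univ.image (fun v => G.degree v)).card : ℝ) ≤ 5000 * (n : ℝ) ^ ((3 : ℝ) / 8) := by
  intro n G _ hc h3
  obtain ⟨x0⟩ := hc.nonempty
  have hn : 1 ≤ n := by
    have := x0.2
    omega
  have hn1 : (1 : ℝ) ≤ n := by exact_mod_cast hn
  have hpow : (1 : ℝ) ≤ (n : ℝ) ^ ((3 : ℝ) / 8) := Real.one_le_rpow hn1 (by norm_num)
  by_cases hreg : ∃ d, G.IsRegularOfDegree d
  · obtain ⟨d, hd⟩ := hreg
    have e1 : (Finset.univ.image (fun v => G.degree v)) ⊆ {d} := by
      intro k hk
      obtain ⟨v, _, rfl⟩ := Finset.mem_image.mp hk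
      rw [hd v]
      exact Finset.mem_singleton_self d
    have e2 := Finset.card_le_card e1
    rw [Finset.card_singleton] at e2
    have e3 : ((Finset.univ.image (fun v => G.degree v)).card : ℝ) ≤ 1 := by exact_mod_cast e2
    linarith
  set S : Set ℝ := {μ : ℝ | ∃ v : Fin n → ℝ, v ≠ 0 ∧ Matrix.mulVec (G.adjMatrix ℝ) v = μ • v}
    with hSdef
  obtain ⟨a, b, c, hba, hcb, hSabc⟩ := exists_three S h3
  obtain ⟨θ0, θ1, θ2, α, h⟩ := exists_dat G (max 1 (-c)) (le_max_left _ _) hc h3 (by
    intro μ v hv hμ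
    have h1 : μ ∈ S := ⟨v, hv, hμ⟩
    rw [hSabc] at h1
    have h2 : -c ≤ max 1 (-c) := le_max_right _ _
    rcases h1 with h1 | h1 | h1
    · linarith
    · linarith
    · have : μ = c := h1
      linarith)
  rcases (theta1_nonneg h hreg).lt_or_eq with hpos | hzero
  · have h1 := values38 h hreg hpos
    rw [Fintype.card_fin] at h1
    have h2 : ((Finset.univ.image (fun v => G.degree v)).card : ℝ)
        ≤ ((Finset.univ.image α).card : ℝ) := by exact_mod_cast deg_le h
    exact h2.trans h1
  · classical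
    obtain ⟨s, hs⟩ := bip h hreg hzero.symm
    have e1 : ∀ u v, (u ∈ s ↔ v ∈ s) → G.degree u = G.degree v := by
      intro u v huv
      rw [← SimpleGraph.card_neighborFinset_eq_degree, ← SimpleGraph.card_neighborFinset_eq_degree]
      congr 1
      ext w
      rw [SimpleGraph.mem_neighborFinset, SimpleGraph.mem_neighborFinset, hs u w, hs v w, huv]
    have e2 : (Finset.univ.image (fun v => G.degree v)).card
        ≤ (Finset.univ : Finset Prop).card := by
      apply Finset.card_le_card_of_surjOn (fun p => if hp : ∃ v, (v ∈ s) = p then G.degree hp.choose else 0)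
      intro k hk
      obtain ⟨v, _, rfl⟩ := Finset.mem_image.mp (Finset.mem_coe.mp hk)
      refine ⟨(v ∈ s), Finset.mem_coe.mpr (Finset.mem_univ _), ?_⟩
      have hp : ∃ w, (w ∈ s) = (v ∈ s) := ⟨v, rfl⟩
      change (if hp : ∃ w, (w ∈ s) = (v ∈ s) then G.degree hp.choose else 0) = G.degree v
      rw [dif_pos hp]
      exact e1 _ _ (iff_of_eq hp.choose_spec)
    have e3 : (Finset.univ : Finset Prop).card = 2 := by simp
    rw [e3] at e2
    have e4 : ((Finset.univ.image (fun v => G.degree v)).card : ℝ) ≤ 2 := by exact_mod_cast e2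
    linarith

end Pool.Agent.Results.MP_5bf3a1_co.DistinctValencies
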